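import Pool.Agent.H9.SE.TarL

/-! LA1: existence of Cohen reals over countable sets. -/

set_option linter.unusedVariables false

open Ordinal Order Set
open scoped ZFSet

namespace SE

open SF CAA

/-- `D` is a dense set of finite sequences -/
def la1_dn (D : V) : Prop := D ⊆ sq ∧ ∀ s ∈ sq, ∃ t ∈ D, s ⊆ t

/-- the first value of `e` in `D` which extends `s` -/
noncomputable def la1_pk (e D s : V) : V :=
  app e (⋃₀ (om.sep fun n => (app e n ∈ D ∧ s ⊆ app e n) ∧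
    ∀ k ∈ n, ¬ (app e k ∈ D ∧ s ⊆ app e k) : ZFSet))

/-- the next state -/
noncomputable def la1_nx (f e z : V) : V :=
  ZFSet.pair (insert (fst z) (fst z))
    (sel (la1_dn (app f (fst z)))
      (la1_pk e (app f (fst z)) (insert (ZFSet.pair (dm (snd z)) ∅) (snd z)))
      (insert (ZFSet.pair (dm (snd z)) ∅) (snd z)))

theorem la1_tpk : Tm ZFm (fun _ v => la1_pk (v 0) (v 1) (v 2)) := by
  unfold la1_pk
  refine Tm.app (Tm.var 0) (Tm.sUnion (Tm.sep (R := fun _ v =>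
    (app (v 1) (v 0) ∈ v 2 ∧ v 3 ⊆ app (v 1) (v 0)) ∧
      ∀ k ∈ v 0, ¬ (app (v 1) k ∈ v 2 ∧ v 3 ⊆ app (v 1) k)) ?_ Tm.om))
  refine ((Dfb.mem (Tm.app (Tm.var 1) (Tm.var 0)) (Tm.var 2)).and
    (Dfb.subset (Tm.var 3) (Tm.app (Tm.var 1) (Tm.var 0)))).and ?_
  refine (Dfb.ball (R := fun _ v => ¬ (app (v 2) (v 0) ∈ v 3 ∧ v 4 ⊆ app (v 2) (v 0))) ktr_zfm
    (Tm.var 0) ?_).congr fun M k v hv => Iff.rfl
  exact ((Dfb.mem (Tm.app (Tm.var 2) (Tm.var 0)) (Tm.var 3)).and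
    (Dfb.subset (Tm.var 4) (Tm.app (Tm.var 2) (Tm.var 0)))).not

theorem la1_ddn (tsq : Tm ZFm (fun _ _ => sq)) : Dfb ZFm (fun _ v => la1_dn (v 0)) := by
  unfold la1_dn
  refine (Dfb.subset (Tm.var 0) tsq).and ?_
  refine (Dfb.ball (R := fun _ v => ∃ t ∈ v 1, v 0 ⊆ t) ktr_zfm tsq ?_).congr
    fun M k v hv => Iff.rfl
  exact (Dfb.bex (R := fun _ v => v 1 ⊆ v 0) ktr_zfm (Tm.var 1)
    (Dfb.subset (Tm.var 1) (Tm.var 0))).congr fun M k v hv => Iff.rfl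

theorem la1_tnx (tsq : Tm ZFm (fun _ _ => sq)) :
    Tm ZFm (fun _ v => la1_nx (v 1) (v 2) (v 0)) := by
  unfold la1_nx
  have t1 : Tm ZFm (fun _ v => app (v 1) (fst (v 0))) := Tm.app (Tm.var 1) (Tm.fst (Tm.var 0))
  have t2 : Tm ZFm (fun _ v => insert (ZFSet.pair (dm (snd (v 0))) ∅) (snd (v 0))) :=
    Tm.ins (Tm.pair (Tm.dm (Tm.snd (Tm.var 0))) Tm.empty) (Tm.snd (Tm.var 0))
  refine Tm.pair (Tm.ins (Tm.fst (Tm.var 0)) (Tm.fst (Tm.var 0))) (Tm.sel ?_ ?_ t2)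
  · exact Dfb.at1 (P := fun _ x => la1_dn x) (la1_ddn tsq) t1
  · exact Tm.at3 (F := fun _ x y z => la1_pk x y z) la1_tpk (Tm.var 2) t1 t2

theorem la1_first (P : V → Prop) (ex : ∃ n : ℕ, P (nS n)) :
    ∃ n : ℕ, P (nS n) ∧ (⋃₀ (om.sep fun n => P n ∧ ∀ k ∈ n, ¬ P k : ZFSet) : ZFSet) = nS n := by
  classical
  have h1 := Nat.find_spec ex
  have h2 : ∀ m < Nat.find ex, ¬ P (nS m) := fun m hm => Nat.find_min ex hm
  refine ⟨Nat.find ex, h1, ?_⟩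
  have : (om.sep fun n => P n ∧ ∀ k ∈ n, ¬ P k : ZFSet) = {nS (Nat.find ex)} := by
    ext z
    rw [ZFSet.mem_sep, ZFSet.mem_singleton]
    constructor
    · rintro ⟨hz, h3, h4⟩
      obtain ⟨n, rfl⟩ := mem_om.1 hz
      rw [nS_inj]
      apply le_antisymm
      · by_contra hlt
        exact h4 _ (nS_mem_nS.2 (not_le.1 hlt)) h1
      · exact Nat.find_min' ex h3
    · rintro rfl
      refine ⟨nS_mem_om _, h1, fun k hk => ?_⟩
      have hk' : k ∈ om := by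
        unfold nS at hk
        rw [Ordinal.mem_toZFSet_iff] at hk
        obtain ⟨β, hβ, rfl⟩ := hk
        rw [Ordinal.mem_toZFSet_iff]
        exact ⟨β, hβ.trans (Ordinal.natCast_lt_omega0 _), rfl⟩
      obtain ⟨m, rfl⟩ := mem_om.1 hk'
      exact h2 m (nS_mem_nS.1 hk)
  rw [this, ZFSet.sUnion_singleton]

theorem la1_pkv {e D s : V} (he : Onto e om hf) (hD : ∃ t ∈ D, s ⊆ t) (hD' : ∀ t ∈ D, t ∈ hf) :
    la1_pk e D s ∈ D ∧ s ⊆ la1_pk e D s := by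
  obtain ⟨t, ht, hst⟩ := hD
  obtain ⟨a, ha, hat⟩ := he.2 t (hD' t ht)
  obtain ⟨n0, rfl⟩ := mem_om.1 ha
  have h1 : app e (nS n0) = t := app_eq (svl_of_isFunc he.1) hat
  obtain ⟨n, hn, h2⟩ := la1_first (fun n => app e n ∈ D ∧ s ⊆ app e n)
    ⟨n0, by rw [h1]; exact ht, by rw [h1]; exact hst⟩
  unfold la1_pk
  rw [h2]
  exact hn

theorem la1_step (hA : T_AA) (hF : T_AF) {e f z : V} (he : Onto e om hf) {n k : ℕ}
    (hz : fst z = nS n) (hk : Sq k (snd z)) :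
    fst (la1_nx f e z) = nS (n + 1) ∧ (∃ k', k + 1 ≤ k' ∧ Sq k' (snd (la1_nx f e z))) ∧
      snd z ⊆ snd (la1_nx f e z) ∧
      (la1_dn (app f (nS n)) → snd (la1_nx f e z) ∈ app f (nS n)) := by
  have h0 : (∅ : V) ∈ hf := by
    have := hA.2.1 0
    rwa [nS_zero] at this
  obtain ⟨-, -, hdm, -⟩ := hF.2.2.2.2.1 k (snd z) hk
  set s1 : V := insert (ZFSet.pair (dm (snd z)) ∅) (snd z) with hs1
  have hs1k : Sq (k + 1) s1 := by
    rw [hs1, hdm]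
    exact (hF.2.2.2.2.2.1 k (snd z) ∅ hk h0).1
  have hsub : snd z ⊆ s1 := fun y hy => by
    rw [hs1, ZFSet.mem_insert_iff]
    exact Or.inr hy
  have hnx : la1_nx f e z = ZFSet.pair (nS (n + 1))
      (sel (la1_dn (app f (nS n))) (la1_pk e (app f (nS n)) s1) s1) := by
    unfold la1_nx
    rw [hz, nS_succ]
  rw [hnx, fst_pair, snd_pair]
  refine ⟨rfl, ?_⟩
  by_cases hd : la1_dn (app f (nS n))
  · rw [sel_pos hd]
    have hs1q : s1 ∈ sq := (hF.1 s1).2 ⟨k + 1, hs1k⟩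
    have hsqhf : ∀ t ∈ app f (nS n), t ∈ hf := by
      intro t ht
      obtain ⟨m, hm⟩ := (hF.1 t).1 (hd.1 ht)
      exact (hF.2.2.2.2.1 m t hm).1
    obtain ⟨h1, h2⟩ := la1_pkv he (hd.2 s1 hs1q) hsqhf
    obtain ⟨m, hm⟩ := (hF.1 _).1 (hd.1 h1)
    refine ⟨⟨m, ?_, hm⟩, fun y hy => h2 (hsub hy), fun _ => h1⟩
    exact ((hF.2.2.2.2.2.2.1 (k + 1) s1 m _ hs1k hm).1 h2).1
  · rw [sel_neg hd]
    exact ⟨⟨k + 1, le_rfl, hs1k⟩, hsub, fun h => absurd h hd⟩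

theorem t_la1 (hA : T_AA) (hF : T_AF) (hG : T_AG) : T_LA1 := by
  intro M k x cx
  have h0 : (∅ : V) ∈ hf := by
    have := hA.2.1 0
    rwa [nS_zero] at this
  have tsq : Tm ZFm (fun _ _ => sq) := hF.2.2.1
  rcases cx with rfl | ⟨f, mf, hfx⟩
  · obtain ⟨h1, -⟩ := hG.2.2.2.2.2 (fun _ => ∅) (fun _ => h0)
    refine ⟨resS om fun _ => ∅, ?_, h1, fun D hD => absurd hD (ZFSet.notMem_empty _)⟩
    exact (Tm.resS (g := fun _ _ => ∅) Tm.om Tm.empty).1 M k (fun _ => ∅) (fun _ => k.mempty)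
  rcases hA.2.2.2.2.2.2.2.2 M k with he | ⟨e, me, he⟩
  · exact absurd (he ▸ h0 : (∅ : V) ∈ (∅ : V)) (ZFSet.notMem_empty _)
  set v : ℕ → V := cons f (cons e fun _ => ∅) with hv
  have iv : In M v := In.cons (In.cons (fun _ => k.mempty) me) mf
  set F : (V → Prop) → (ℕ → V) → V := fun _ u => la1_nx (u 1) (u 2) (u 0) with hFd
  set G : (V → Prop) → (ℕ → V) → V := fun _ _ => ZFSet.pair ∅ ∅ with hGd
  have tF : Tm ZFm F := la1_tnx tsq
  have tG : Tm ZFm G := Tm.pair Tm.empty Tm.empty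
  have hit : ∀ n, SF.it F G M v (n + 1) = la1_nx f e (SF.it F G M v n) := fun n => rfl
  have key : ∀ n, fst (SF.it F G M v n) = nS n ∧ ∃ k', n ≤ k' ∧ Sq k' (snd (SF.it F G M v n)) := by
    intro n
    induction n with
    | zero =>
      refine ⟨?_, 0, le_rfl, ?_⟩
      · show fst (ZFSet.pair ∅ ∅) = nS 0
        rw [fst_pair, nS_zero]
      · show Sq 0 (snd (ZFSet.pair ∅ ∅))
        rw [snd_pair]
        exact hF.2.1
    | succ n ih =>
      obtain ⟨h1, k', hk', h2⟩ := ih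
      obtain ⟨h3, ⟨k2, h4, h5⟩, -⟩ := la1_step hA hF (f := f) he h1 h2
      rw [hit]
      exact ⟨h3, k2, by omega, h5⟩
  have step : ∀ n, snd (SF.it F G M v n) ⊆ snd (SF.it F G M v (n + 1)) ∧
      (la1_dn (app f (nS n)) → snd (SF.it F G M v (n + 1)) ∈ app f (nS n)) := by
    intro n
    obtain ⟨h1, k', hk', h2⟩ := key n
    obtain ⟨-, -, h3, h4⟩ := la1_step hA hF (f := f) he h1 h2
    rw [hit]
    exact ⟨h3, h4⟩
  have mono : ∀ m n, m ≤ n → snd (SF.it F G M v m) ⊆ snd (SF.it F G M v n) := by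
    intro m n hmn
    induction n, hmn using Nat.le_induction with
    | base => exact fun y hy => hy
    | succ n hn ih => exact fun y hy => (step n).1 (ih hy)
  set C : V := imS om fun y => snd (SF.it F G M v (nn y)) with hC
  have memC : ∀ b, b ∈ C ↔ ∃ n : ℕ, b = snd (SF.it F G M v n) := by
    intro b
    rw [hC, mem_imS]
    constructor
    · rintro ⟨y, hy, rfl⟩
      exact ⟨_, rfl⟩
    · rintro ⟨n, rfl⟩
      exact ⟨nS n, nS_mem_om n, by rw [nn_nS]⟩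
  have tC : Tm ZFm (fun M v => (⋃₀ (imS om fun y => snd (SF.it F G M v (nn y)) : ZFSet) : ZFSet)) := by
    refine Tm.sUnion ?_
    exact (Tm.image (f := fun _ _ => om)
      (g := fun M u => snd (SF.it F G M (fun i => u (i + 1)) (nn (u 0)))) Tm.om
      (Tm.snd (tm_it tF tG))).congr fun M k v hv => rfl
  obtain ⟨h1, h2⟩ := hG.2.2.2.2.1 C
    (fun b hb => by
      obtain ⟨n, rfl⟩ := (memC b).1 hb
      obtain ⟨-, k', -, h3⟩ := key n
      exact (hF.1 _).2 ⟨k', h3⟩)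
    (fun b hb c hc => by
      obtain ⟨m, rfl⟩ := (memC b).1 hb
      obtain ⟨n, rfl⟩ := (memC c).1 hc
      rcases le_total m n with h | h
      · exact Or.inl (mono m n h)
      · exact Or.inr (mono n m h))
    (fun n => by
      obtain ⟨-, k', h3, h4⟩ := key n
      exact ⟨k', _, h3, h4, (memC _).2 ⟨n, rfl⟩⟩)
  refine ⟨(⋃₀ C : ZFSet), tC.1 M k v iv, h1, ?_⟩
  intro D hD hDsq hDd
  obtain ⟨a, ha, haD⟩ := hfx.2 D hD
  obtain ⟨n, rfl⟩ := mem_om.1 ha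
  have h3 : app f (nS n) = D := app_eq (svl_of_isFunc hfx.1) haD
  have h4 : la1_dn (app f (nS n)) := by
    rw [h3]
    exact ⟨hDsq, hDd⟩
  have h5 := (step n).2 h4
  rw [h3] at h5
  exact ⟨_, h5, h2 _ ((memC _).2 ⟨n + 1, rfl⟩)⟩

end SE
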