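import Pool.Agent.H45.SE.TarT

/-! TGb: the relation `Side` is preserved by isomorphisms. -/

set_option linter.unusedVariables false

open Ordinal Order Set
open scoped ZFSet

namespace SE

open SF

theorem tgb_dir (hBA : T_BA) (hBBa : T_BBa) (hBC : T_BC) (hBD : T_BD) (hBJ : T_BJ) (hBR : T_BR)
    (hTX : T_TX) (hTCa : T_TCa) (hTCb : T_TCb) (hTCc : T_TCc) (hTEc : T_TEc) (hTF : T_TF)
    (D : Cx) (ok : D.Ok) (k : V) (hCl : D.ClT (lS k)) (π ρ ρ' p : V) (hN : D.IsN π ρ ρ' p)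
    (hZ : AgZ D.L π ρ p) (hk : k ∈ ρ) (hid : Idn π (insert k (lS k))) (G : V) (hG : D.Gn ρ G)
    (hp : p ∈ G) (y : V) (h : D.Side k ρ G y) : D.Side k ρ' (gp D.L π p ρ' G) y := by
  obtain ⟨ρ1, G1, hEx, hC, hS⟩ := h
  have zN : ZFm D.N := ok.zfc.toZFCm.toZFm
  obtain ⟨-, -, hHN, -, -⟩ := hBJ D ok
  obtain ⟨-, -, -, -, hBR5, -, -, -, -, hBRn⟩ := hBR D ok
  have hpP : p ∈ Pos D.L ρ := hN.i.pp
  obtain ⟨hpF, hpd, -⟩ := (hBC.2.2.2.1 D.L ρ p).1 hpP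
  have hpP1 : p ∈ D.P ρ1 := hBD.2.1 D.L ρ ρ1 p hpP fun i hi => hEx.sub (hpd hi)
  have hrst : rst ρ p = p := ((hBC.2.2.2.2.1 ρ p hpF).2.2.2) hpd
  have hle : Le (rst ρ p) p := by
    rw [hrst]
    exact (hBD.2.2.2.1 D.L ρ p hpP).1
  have hp1 : p ∈ G1 := by
    have h1 : p ∈ gs G1 ρ := by
      rw [hEx.res]
      exact hp
    unfold gs at h1
    exact (ZFSet.mem_sep.1 h1).1
  have hcpd : D.Cpd ρ' π ρ ρ' p ρ1 p (nS 1) :=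
    ⟨hN, hEx.st.h, hEx.st.c, hEx.sub, hpP1, hle, hN.h', hTX.1 ρ', hBRn 1⟩
  obtain ⟨hN1, hsub1, hag1, hZ1, -⟩ := hTEc D ok ρ' π ρ ρ' p ρ1 p (nS 1) hcpd _ _ rfl rfl
  set π1 := cpm D.L ρ' π ρ p (nS 1) ρ1
  set ρ1' := cpi D.L ρ' π ρ p (nS 1) ρ1
  have hne : nS 1 ≠ (∅ : V) := nS_ne_empty 0
  have hZ1' := hZ1 hne hZ
  obtain ⟨-, -, hcc⟩ := hTCc D ok π ρ ρ' p π1 ρ1 ρ1' p hN hN1 hEx.sub hag1 hle
  obtain ⟨-, hres⟩ := hcc G1 hEx.st.g hp1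
  rw [hEx.res] at hres
  obtain ⟨-, hTa⟩ := hTCa D ok π1 ρ1 ρ1' p hN1
  obtain ⟨hgn, -, -, -, -⟩ := hTa G1 hEx.st.g hp1
  -- the support of `k`
  have hk1 : k ∈ ρ1 := hEx.sub hk
  obtain ⟨-, hBA7, -⟩ := hBA.2.2.2.2.2.2 D.L ρ1 hEx.st.c
  obtain ⟨hLab, hsk, hclk, -, -⟩ := hBA7 k hk1
  obtain ⟨hTr, -, -⟩ := hBA.2.2.2.2.2.2 D.L (lS k) hclk
  have hNs : D.N (lS k) := hHN _ ((hBR5 ρ1 hEx.st.h).2.2.2.1 k hk1)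
  have hid1 : Idn π1 (lS k) := by
    intro i hi
    have hiρ : i ∈ ρ := by
      obtain ⟨-, h7, -⟩ := hBA.2.2.2.2.2.2 D.L ρ hN.c
      exact (h7 k hk).2.1 hi
    rw [hag1 i hiρ]
    exact hid i (ZFSet.mem_insert_iff.2 (Or.inr hi))
  have hkN : D.N k := zN.trans ρ1 (hHN _ hEx.st.h) k hk1
  have hAN : D.N (lA k) := by
    have := hBBa.2.2.2.2.2.2.2.1.1 D.N zN (cons k fun _ => k) (In.cons (fun _ => hkN) hkN)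
    exact this
  obtain ⟨-, -, hTb⟩ := hTCb D ok π1 ρ1 ρ1' p hN1 G1 hEx.st.g hp1
  obtain ⟨-, -, -, hev⟩ := hTb (lS k) hNs hsk hTr hid1
  refine ⟨ρ1', gp D.L π1 p ρ1' G1, ⟨⟨hN1.h', hN1.c', hgn⟩, hsub1, hres⟩, ?_, ?_⟩
  · exact (hCl π1 ρ1 ρ1' p hN1 hZ1' hNs hsk hTr hid1 G1 hEx.st.g hp1).1 hC
  · rw [hev (lA k) hAN hLab.a]
    exact ((hTF D ok π1 ρ1 ρ1' p hN1 hZ1' G1 hEx.st.g hp1).2 _ _).2 hS

theorem t_tgb (hBA : T_BA) (hBBa : T_BBa) (hBC : T_BC) (hBD : T_BD) (hBJ : T_BJ) (hBR : T_BR)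
    (hTX : T_TX) (hTBe : T_TBe) (hTCa : T_TCa) (hTCb : T_TCb) (hTCc : T_TCc) (hTEc : T_TEc)
    (hTF : T_TF) : T_TGb := by
  intro D ok tab k hCl π ρ ρ' p hN hZ hk hid G hG hp y
  constructor
  · exact tgb_dir hBA hBBa hBC hBD hBJ hBR hTX hTCa hTCb hTCc hTEc hTF D ok k hCl π ρ ρ' p hN hZ
      hk hid G hG hp y
  · intro h
    obtain ⟨hNi, hTa⟩ := hTCa D ok π ρ ρ' p hN
    obtain ⟨hgn, hmem, -, -, hback⟩ := hTa G hG hp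
    obtain ⟨-, -, -, hZi, -, -, hs⟩ := hTBe D.L π ρ ρ' p hN.c hN.c' hN.i
    obtain ⟨-, hBA7, -⟩ := hBA.2.2.2.2.2.2 D.L ρ hN.c
    obtain ⟨-, -, -, -, hins⟩ := hBA7 k hk
    obtain ⟨h1, h2⟩ := hs (insert k (lS k)) hins hid
    have h3 := tgb_dir hBA hBBa hBC hBD hBJ hBR hTX hTCa hTCb hTCc hTEc hTF D ok k hCl (inv π)
      ρ' ρ (mv π p) hNi (hZi hZ) (h1 (ZFSet.mem_insert_iff.2 (Or.inl rfl))) h2
      (gp D.L π p ρ' G) hgn hmem y h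
    rwa [hback] at h3

end SE
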