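import Pool.Agent.H45.SE.TarT

/-! THa: the values of the names of a copied label. -/

set_option linter.unusedVariables false

open Ordinal Order Set
open scoped ZFSet

namespace SE

open SF

theorem t_tha (hBA : T_BA) (hBBa : T_BBa) (hBC : T_BC) (hBJ : T_BJ) (hBO : T_BO) (hBR : T_BR)
    (hTBa : T_TBa) (hTCd : T_TCd) (hTDa : T_TDa) (hTDb : T_TDb) (hTEc : T_TEc) : T_THa := by
  intro D ok g π0 ρ0 ρ0' p0 ρ1 p1 fl hcpd π ρ1' hπ hρ l hl hl0 G hG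
  have zN : ZFm D.N := ok.zfc.toZFCm.toZFm
  obtain ⟨-, -, hHN, -, -⟩ := hBJ D ok
  obtain ⟨-, -, -, -, hBR5, -⟩ := hBR D ok
  obtain ⟨hN, -, -, -, -, hcomp⟩ := hTEc D ok g π0 ρ0 ρ0' p0 ρ1 p1 fl hcpd π ρ1' hπ hρ
  obtain ⟨-, -, -, hS, hY, hZ0, hZ1⟩ := hcomp l hl hl0
  -- the support of `l`
  obtain ⟨-, hBA7, -⟩ := hBA.2.2.2.2.2.2 D.L ρ1 hcpd.c
  obtain ⟨hLab, hsl, hcll, -, -⟩ := hBA7 l hl
  obtain ⟨hTr, -, -⟩ := hBA.2.2.2.2.2.2 D.L (lS l) hcll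
  have hNs : D.N (lS l) := hHN _ ((hBR5 ρ1 hcpd.h).2.2.2.1 l hl)
  have hlN : D.N l := zN.trans ρ1 (hHN _ hcpd.h) l hl
  have hYN : D.N (lY l) :=
    hBBa.2.2.2.2.2.1.1 D.N zN (cons l fun _ => l) (In.cons (fun _ => hlN) hlN)
  have hZN : D.N (lZ l) :=
    hBBa.2.2.2.2.2.2.1.1 D.N zN (cons l fun _ => l) (In.cons (fun _ => hlN) hlN)
  obtain ⟨hN', hag, -, -, hext⟩ := hTCd D ok π ρ1 ρ1' p1 hN (lS l) hNs hsl hTr
  -- the restricted condition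
  obtain ⟨hpF, -, -⟩ := (hBC.2.2.2.1 D.L ρ1 p1).1 hcpd.p
  obtain ⟨hrF, hrd, -, -⟩ := hBC.2.2.2.2.1 (lS l) p1 hpF
  have hrd' : dm (rst (lS l) p1) ⊆ lS l := fun i hi => ((hrd i).1 hi).2
  have hmv : mv (rst (lS l) π) (rst (lS l) p1) = mv π (rst (lS l) p1) :=
    (hTBa.2.2.2.1 (rst (lS l) π) π (lS l) hag).2 _ hrF hrd'
  have htrn : ∀ Y, trn D.L π (rst (lS l) p1) (lS l) (im π (lS l)) Y =
      trn D.L (rst (lS l) π) (rst (lS l) p1) (lS l) (im π (lS l)) Y := fun Y =>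
    hTDa.1 D.L π (rst (lS l) π) (rst (lS l) p1) (lS l) (im π (lS l)) Y hrF hrd'
      fun i hi => (hag i hi).symm
  rw [hS] at hG
  have hkn : fl = ∅ → ev G (lZ (app π l)) = kc 0 := by
    intro hfl
    rw [hZ0 hfl]
    obtain ⟨-, -, -, h4, -⟩ := hBO D ok (im π (lS l)) (hHN _ hN'.h') hN'.c'
    exact (h4 0).2.2 G hG
  refine ⟨hkn, ?_⟩
  by_cases hm : mv π (rst (lS l) p1) ∈ G
  · right
    rw [hS]
    exact hext G hG hm
  · left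
    have hoff : ∀ Y, D.N Y → Nam D.L (lS l) Y →
        ev G (trn D.L π (rst (lS l) p1) (lS l) (im π (lS l)) Y) = kc 0 := by
      intro Y h1 h2
      rw [htrn]
      exact ((hTDb D ok (rst (lS l) π) (lS l) (im π (lS l)) (rst (lS l) p1) hN' Y h1 h2).2
        G hG).2 (by rw [hmv]; exact hm)
    constructor
    · rw [hY]
      exact hoff _ hYN hLab.y
    · by_cases hfl : fl = ∅
      · exact hkn hfl
      · rw [hZ1 hfl]
        exact hoff _ hZN hLab.z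

end SE
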